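import Mathlib
import Pool.Agent.X90.DC.Gen2

/-!
# MP_154526_nt: all but few tuples of arguments have only stuffle relations, modulo constant multiple zeta values

A pattern in `k` variables is a list of letters `b + u_1 s_1 + ... + u_k s_k` with natural numbers `b`, `u_j`; at a
tuple `s` of natural numbers it gives an index. The first letters may be constant, of arbitrary weight, such as in
`ζ(5, 1, s_1, 3, s_1 + s_2)`. The fronts of the pattern are the nonempty initial segments of the list of its constant
first letters.

Let `w_1, ..., w_r` be admissible patterns in `k` variables and `x_1, ..., x_t` arbitrary complex numbers, for instance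
`π`, `log 2`, or arbitrary multiple zeta values. For all but `K N ^ (k - 1)` of the tuples `s ∈ [N, κ N] ^ k`, EVERY
polynomial relation of degree at most `D` with integer coefficients of absolute value at most `C ^ N` between the `x_j`
and the multiple zeta values `ζ(w_1(s)), ..., ζ(w_r(s))` is a consequence of the stuffle product and of the algebraic
relations between the `x_j` and the multiple zeta values of the (finitely many, constant) fronts. Here `K` depends only
on the patterns, `D` and `κ`, not on `C` and the `x_j`. A consequence means that it holds in every commutative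
`ℚ`-algebra for every family with the stuffle product and the relations mentioned, for example for the motivic multiple
zeta values if these relations are motivic.

So for these tuples a linear relation between multiple zeta values and products of them can only fail to follow from the
stuffle relations if a relation between the fronts does. The starting files on this page concern one variable and need
a first letter which is not constant, or constant letters of weight at most three in front; but there the relations are
described for all large arguments.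

The theorem is the unused theorem `gen2` of `Pool.Agent.X90.DC` (starting library): elimination of the constants between
several tuples in general position, and the theorem of `Pool.Agent.Y760.ZF` on the stuffle algebra (subspace theorem).
-/

set_option autoImplicit false

namespace Pool.Agent.Results.MP_154526_nt.ExceptionalTuples

/-- `trunc [s_1, ..., s_r] m` is the sum of `∏ n_i ^ (-s_i)` over `m > n_1 > ... > n_r ≥ 1` -/
noncomputable def trunc : List ℕ → ℕ → ℝ
  | [], _ => 1
  | s :: l, m => ∑ j ∈ Finset.Ico 1 m, trunc l j / (j : ℝ) ^ s

/-- the multiple zeta value `ζ(s_1, ..., s_r)`, the sum of `∏ n_i ^ (-s_i)` over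
`n_1 > ... > n_r ≥ 1`; `ζ() = 1` -/
noncomputable def mzv : List ℕ → ℝ
  | [] => 1
  | s :: l => ∑' m : ℕ, trunc l (m + 1) / ((m + 1 : ℕ) : ℝ) ^ s

/-- nonempty admissible indices: `(s_1, ..., s_r)`, `r ≥ 1`, with `s_1 ≥ 2` and all `s_i ≥ 1` -/
def Admissible : List ℕ → Prop
  | [] => False
  | s :: l => 2 ≤ s ∧ ∀ t ∈ l, 1 ≤ t

/-- the terms of the stuffle product -/
def stuffles : List ℕ → List ℕ → List (List ℕ)
  | [], v => [v]
  | x :: u, [] => [x :: u]
  | x :: u, y :: v =>
    (stuffles u (y :: v)).map (x :: ·) ++ (stuffles (x :: u) v).map (y :: ·) ++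
      (stuffles u v).map ((x + y) :: ·)
termination_by k l => k.length + l.length

/-- the letter `(b, u)` stands for `b + ∑ u_j s_j` -/
abbrev Letter (k : ℕ) : Type := ℕ × (Fin k → ℕ)

/-- the index given by a pattern at the tuple `s` -/
def index {k : ℕ} (s : Fin k → ℕ) (w : List (Letter k)) : List ℕ :=
  w.map fun u => u.1 + ∑ j, u.2 j * s j

/-- constant letters are positive, and the first letter is at least two if it is constant -/
def AdmissiblePattern {k : ℕ} (w : List (Letter k)) : Prop :=
  (∀ u ∈ w.head?, u.2 ≠ 0 ∨ 2 ≤ u.1) ∧ ∀ u ∈ w, u.2 ≠ 0 ∨ 1 ≤ u.1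

open Classical in
/-- the constant letters in front of the first letter which is not constant -/
def constantPart {k : ℕ} : List (Letter k) → List ℕ
  | [] => []
  | u :: w => if u.2 = 0 then u.1 :: constantPart w else []

/-- `q` is a front of one of the patterns: a nonempty initial segment of the constant part -/
def IsFront {k r : ℕ} (w : Fin r → List (Letter k)) (q : List ℕ) : Prop :=
  q ≠ [] ∧ ∃ i, q <+: constantPart (w i)

/-- the elements `Z u` of the ring `A`, for the nonempty admissible indices `u`, have the stuffle product -/
def HasStuffle {A : Type} [CommRing A] (Z : List ℕ → A) : Prop :=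
  ∀ u v, Admissible u → Admissible v → Z u * Z v = ((stuffles u v).map Z).sum

/-- all algebraic relations with integer coefficients between the numbers `x` and the multiple zeta values of the
fronts of the patterns hold for `y` and `Z` -/
def FrontRelations {k r t : ℕ} (w : Fin r → List (Letter k)) (x : Fin t → ℂ) {A : Type} [CommRing A]
    (y : Fin t → A) (Z : List ℕ → A) : Prop :=
  ∀ Q : MvPolynomial (Fin t ⊕ {q : List ℕ // Admissible q ∧ IsFront w q}) ℤ,
    MvPolynomial.aeval (Sum.elim x fun q => ((mzv q.1 : ℝ) : ℂ)) Q = 0 →
      MvPolynomial.aeval (Sum.elim y fun q => Z q.1) Q = 0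

open Classical in
/-- the value of `Z` at an index, `1` at the empty index -/
noncomputable def value {A : Type} [CommRing A] (Z : List ℕ → A) (u : List ℕ) : A :=
  if u = [] then 1 else Z u

/-- The polynomial relation `P` between the numbers `x` and the multiple zeta values of the patterns at the tuple `s`
is a consequence of the stuffle product and of the relations between `x` and the multiple zeta values of the fronts:
it holds for all families, in all commutative `ℚ`-algebras, which have these properties. -/
def IsConsequence {k r t : ℕ} (w : Fin r → List (Letter k)) (x : Fin t → ℂ) (s : Fin k → ℕ)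
    (P : MvPolynomial (Fin t ⊕ Fin r) ℤ) : Prop :=
  ∀ (A : Type) [CommRing A] [Algebra ℚ A] (y : Fin t → A) (Z : List ℕ → A),
    FrontRelations w x y Z → HasStuffle Z →
      MvPolynomial.aeval (Sum.elim y fun i => value Z (index s (w i))) P = 0

/-- the tuples in `[N, κ N] ^ k` with a relation, of degree at most `D` and with coefficients at most `H`, which is not
a consequence of the stuffle product and of the relations between `x` and the fronts -/
def exceptional {k r t : ℕ} (w : Fin r → List (Letter k)) (x : Fin t → ℂ) (D κ N : ℕ) (H : ℝ) :
    Set (Fin k → ℕ) :=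
  {s | (∀ j, N ≤ s j ∧ s j ≤ κ * N) ∧ ∃ P : MvPolynomial (Fin t ⊕ Fin r) ℤ, P.totalDegree ≤ D ∧
    (∀ m, |((P.coeff m : ℤ) : ℝ)| ≤ H) ∧
    MvPolynomial.aeval (Sum.elim x fun i => ((mzv (index s (w i)) : ℝ) : ℂ)) P = 0 ∧
    ¬ IsConsequence w x s P}

open Pool.Agent.X90.DC (fpx)
open Pool.Agent.X90.DB (Ad ix ex)

theorem trunc_eq : ∀ l m, trunc l m = Pool.Agent.Y760.ZG.hr l m := by
  intro l
  induction l with
  | nil => intro m; rw [trunc, Pool.Agent.Y760.ZG.hr]
  | cons s l ih =>
    intro m
    rw [trunc, Pool.Agent.Y760.ZG.hr]
    exact Finset.sum_congr rfl fun j _ => by rw [ih]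

theorem mzv_eq : ∀ l, mzv l = Pool.Agent.Y760.ZG.mz l := by
  intro l
  cases l with
  | nil => rw [mzv, Pool.Agent.Y760.ZG.mz]
  | cons s l =>
    rw [mzv, Pool.Agent.Y760.ZG.mz]
    exact tsum_congr fun k => by rw [trunc_eq]

theorem stuffles_eq : ∀ u v, stuffles u v = Pool.Agent.Y760.ZF.sti u v := by
  intro u v
  induction u, v using Pool.Agent.Y760.ZF.sti.induct with
  | case1 v => rw [stuffles, Pool.Agent.Y760.ZF.sti]
  | case2 x u => rw [stuffles, Pool.Agent.Y760.ZF.sti]
  | case3 x u y v ih1 ih2 ih3 => rw [stuffles, Pool.Agent.Y760.ZF.sti, ih1, ih2, ih3]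

theorem adm_iff : ∀ u, Admissible u ↔ Ad u := by
  intro u
  cases u with
  | nil => exact Iff.rfl
  | cons a l => exact Iff.rfl

theorem constantPart_eq {k : ℕ} : ∀ w : List (Letter k), constantPart w = fpx w := by
  intro w
  induction w with
  | nil => rw [constantPart, fpx]
  | cons u w ih =>
    rw [constantPart, fpx, ih]

theorem value_eq {A : Type} [CommRing A] (Z : List ℕ → A) (u : List ℕ) : value Z u = ex Z u := by
  by_cases h : u = []
  · rw [value, if_pos h, h, Pool.Agent.X90.DB.ex_nil]
  · rw [value, if_neg h, Pool.Agent.X90.DB.ex_ne _ h]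

/-- Let `w_1, ..., w_r` be admissible patterns in `k` variables, and let `D` and `κ` be natural numbers. There is a `K`
such that for all real `C` and all complex numbers `x_1, ..., x_t` the following holds for all sufficiently large `N`.
For all but at most `K N ^ (k - 1)` tuples `s` of integers `N ≤ s_j ≤ κ N`, every polynomial relation of degree at most
`D` with integer coefficients of absolute value at most `C ^ N` between the `x_j` and the multiple zeta values
`ζ(w_i(s))` is a consequence of the stuffle product and of the algebraic relations between the `x_j` and the multiple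
zeta values of the fronts of the patterns `w_i`. -/
theorem result {k r : ℕ} (t : ℕ) (w : Fin r → List (Letter k)) (hw : ∀ i, AdmissiblePattern (w i)) (D κ : ℕ) :
    ∃ K : ℕ, ∀ (C : ℝ) (x : Fin t → ℂ), ∃ N₀ : ℕ, ∀ N : ℕ, N₀ ≤ N →
      (exceptional w x D κ N (C ^ N)).ncard ≤ K * N ^ (k - 1) := by
  classical
  obtain ⟨K, hK⟩ := Pool.Agent.X90.DC.gen2 t k r D w hw {q | IsFront w q}
    (fun i q hq hne => ⟨hne, i, by rw [constantPart_eq]; exact hq⟩) κ
  refine ⟨K, fun C x => ?_⟩
  obtain ⟨N₀, hN₀⟩ := hK C x
  refine ⟨N₀, fun N hN => ?_⟩
  have hfin : (exceptional w x D κ N (C ^ N)).Finite := by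
    refine (Set.Finite.pi' (t := fun _ : Fin k => Set.Icc N (κ * N)) fun _ => Set.finite_Icc _ _).subset ?_
    intro s hs j
    exact ⟨(hs.1 j).1, (hs.1 j).2⟩
  rw [Set.ncard_eq_toFinset_card _ hfin]
  refine hN₀ N hN _ fun s hs => ?_
  rw [Set.Finite.mem_toFinset] at hs
  obtain ⟨h1, P, h2, h3, h4, h5⟩ := hs
  refine ⟨h1, P, h2, h3, ?_, fun h => h5 ?_⟩
  · rw [← h4]
    congr 2
    funext i
    rcases i with i | i
    · rfl
    · simp only [Sum.elim_inr, mzv_eq]
      rfl
  · intro A _ _ y Z hF hS
    have h6 := h A y Z ?_ ?_
    · rw [← h6]
      congr 2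
    · intro Q hQ
      refine hF Q ?_
      rw [← hQ]
      congr 2
      funext i
      rcases i with i | i
      · rfl
      · simp only [Sum.elim_inr, mzv_eq]
        rfl
    · intro u v hu hv
      rw [hS u v hu hv, stuffles_eq]

end Pool.Agent.Results.MP_154526_nt.ExceptionalTuples
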