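import Pool.Agent.N760.SC.A
import Pool.Agent.Results.MP_154526_nt.ExceptionalTuples

/-!
# MP_154526_nt: multiple zeta values with arguments near the values of multiplicative functions

A pattern in `k` variables is a list of letters `b + u_1 s_1 + ... + u_k s_k` with natural numbers `b`, `u_j`; at a
tuple `s` of natural numbers it gives an index. The first letters may be constant, of arbitrary weight, such as in
`ζ(5, 1, s_1, 3, s_1 + s_2)`. Let `w_1, ..., w_r` be admissible patterns in `k` variables and `x_1, ..., x_t` arbitrary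
complex numbers, for instance `π`, `log 2`, or arbitrary multiple zeta values.

Let `F_1, ..., F_k` be positive multiplicative functions of at most polynomial growth with `F_i p ≤ M p` for the large primes
`p` and different values at different large primes; for example Euler's function or the sum of the divisors. Let
`0 ≤ θ < 1 / k`. We prove: for all `k`-tuples `m` of positive integers up to `N` but `N^k / (log N)^U`, for ALL tuples `s` with
`|s_i - F_i(m_i)| ≤ F_i(m_i)^θ` and all `T` with `T ≤ s_i ≤ κ T` for all `i`, EVERY polynomial relation of degree at most `D`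
with integer coefficients of absolute value at most `C ^ T` between the `x_j` and the multiple zeta values
`ζ(w_1(s)), ..., ζ(w_r(s))` is a consequence of the stuffle product and of the algebraic relations between the `x_j` and the
multiple zeta values of the fronts.

The theorem `ExceptionalTuples` of this page (helper599) bounds the number of the exceptional tuples in `[N, κ N] ^ k` by
`K N ^ (k - 1)`. The values of the `F_i` are in general taken with very large multiplicities (and are not values at
all for most integers), and so this does not follow from the number of the exceptional tuples. Proof: such functions avoid sets of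
tuples with a power saving (tool of helper733); the exceptional tuples of all scales together with their windows are such a
set.
-/

set_option autoImplicit false

namespace Pool.Agent.Results.MP_154526_nt.MultiplicativeValues

open Pool.Agent.N733.TG (LM lm_totient lm_sigma)
open Pool.Agent.Results.MP_154526_nt.ExceptionalTuples
  (mzv Letter index AdmissiblePattern IsConsequence exceptional)

/-- Every relation of degree at most `D` and with coefficients at most `H` between the numbers `x` and the multiple zeta
values of the patterns at the tuple `s` is a consequence of the stuffle product and of the relations between `x` and the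
multiple zeta values of the fronts. -/
def OnlyConsequences {k r t : ℕ} (w : Fin r → List (Letter k)) (x : Fin t → ℂ) (D : ℕ) (H : ℝ) (s : Fin k → ℕ) : Prop :=
  ∀ P : MvPolynomial (Fin t ⊕ Fin r) ℤ, P.totalDegree ≤ D → (∀ m, |((P.coeff m : ℤ) : ℝ)| ≤ H) →
    MvPolynomial.aeval (Sum.elim x fun i => ((mzv (index s (w i)) : ℝ) : ℂ)) P = 0 → IsConsequence w x s P

lemma only_mono {k r t : ℕ} (w : Fin r → List (Letter k)) (x : Fin t → ℂ) (D : ℕ) {H H' : ℝ} (h : H ≤ H')
    (s : Fin k → ℕ) (hs : OnlyConsequences w x D H' s) : OnlyConsequences w x D H s :=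
  fun P h1 h2 h3 => hs P h1 (fun m => (h2 m).trans h) h3

lemma exceptional_eq {k r t : ℕ} (w : Fin r → List (Letter k)) (x : Fin t → ℂ) (D κ N : ℕ) (H : ℝ) :
    {s : Fin k → ℕ | (∀ j, N ≤ s j ∧ s j ≤ κ * N) ∧ ¬ OnlyConsequences w x D H s} = exceptional w x D κ N H := by
  ext s
  constructor
  · rintro ⟨h1, h2⟩
    unfold OnlyConsequences at h2
    push Not at h2
    obtain ⟨P, h3, h4, h5, h6⟩ := h2
    exact ⟨h1, P, h3, h4, h5, h6⟩
  · rintro ⟨h1, P, h3, h4, h5, h6⟩
    exact ⟨h1, fun h => h6 (h P h3 h4 h5)⟩

lemma pow_bound (C : ℝ) {N T : ℕ} (h : T ≤ 2 * N) : C ^ T ≤ ((max |C| 1) ^ 2) ^ N := by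
  have h5 : (1 : ℝ) ≤ max |C| 1 := le_max_right _ _
  calc C ^ T ≤ |C ^ T| := le_abs_self _
    _ = |C| ^ T := abs_pow C T
    _ ≤ (max |C| 1) ^ T := pow_le_pow_left₀ (abs_nonneg C) (le_max_left _ _) T
    _ ≤ (max |C| 1) ^ (2 * N) := pow_le_pow_right₀ h5 h
    _ = _ := pow_mul _ _ _

/-- Let `w_1, ..., w_r` be admissible patterns in `k ≥ 1` variables, `D`, `κ` natural numbers, `C` a real number,
`x_1, ..., x_t` complex numbers, `F_1, ..., F_k` functions with `LM`, `θ ≥ 0`, `k θ < 1`, and `U` a natural number. For all
large `N` and all but at most `N^k / (log N)^U` of the tuples `m` of integers in `[1, N]`: for ALL tuples `s` of natural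
numbers with `|s_i - F_i(m_i)| ≤ F_i(m_i)^θ` and all `T ≥ 1` with `T ≤ s_i ≤ κ T` for all `i`, every polynomial relation of
degree at most `D` with integer coefficients of absolute value at most `C ^ T` between the `x_j` and the multiple zeta
values `ζ(w_i(s))` is a consequence of the stuffle product and of the algebraic relations between the `x_j` and the multiple
zeta values of the fronts. Euler's function and the sum of the divisors satisfy `LM`. -/
theorem result :
    (∀ {k r : ℕ} (t : ℕ), 1 ≤ k → ∀ w : Fin r → List (Letter k), (∀ i, AdmissiblePattern (w i)) → ∀ (D κ : ℕ) (C : ℝ)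
      (x : Fin t → ℂ) (F : Fin k → ℕ → ℕ), (∀ i, LM (F i)) → ∀ θ : ℝ, 0 ≤ θ → k * θ < 1 → ∀ U : ℕ,
      ∃ N₀ : ℕ, ∀ N : ℕ, N₀ ≤ N →
      ({m : Fin k → ℕ | (∀ i, 1 ≤ m i ∧ m i ≤ N) ∧ ¬ ∀ (s : Fin k → ℕ) (T : ℕ), 1 ≤ T →
        (∀ i, T ≤ s i ∧ s i ≤ κ * T) → (∀ i, |(s i : ℝ) - F i (m i)| ≤ (F i (m i) : ℝ) ^ θ) →
          OnlyConsequences w x D (C ^ T) s}.ncard : ℝ) ≤ (N : ℝ) ^ k / Real.log N ^ U) ∧
    LM Nat.totient ∧ LM (fun m => ∑ d ∈ m.divisors, d) := by
  refine ⟨fun {k r} t hk w hw D κ C x F hF θ hθ hθk U => ?_, lm_totient, lm_sigma⟩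
  obtain ⟨K, hK⟩ := ExceptionalTuples.result t w hw D (2 * κ)
  obtain ⟨N₁, hN₁⟩ := hK ((max |C| 1) ^ 2) x
  obtain ⟨N₀, hN₀⟩ := Pool.Agent.N760.SC.keep_scales hk κ (fun T s => ¬ OnlyConsequences w x D (C ^ T) s)
    (fun N s => ¬ OnlyConsequences w x D (((max |C| 1) ^ 2) ^ N) s)
    (fun N T s h1 h2 h3 h4 => h3 (only_mono w x D (pow_bound C h2.le) s h4))
    ⟨K, N₁, fun N hN => by
      rw [exceptional_eq]
      exact hN₁ N hN⟩ hF hθ hθk U
  refine ⟨N₀, fun N hN => le_trans (le_of_eq ?_) (hN₀ N hN)⟩
  simp only [not_not]

end Pool.Agent.Results.MP_154526_nt.MultiplicativeValues
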