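import Pool.Agent.N760.SC.B
import Pool.Agent.Results.MP_154526_nt.MultiplicativeValues

/-!
# MP_154526_nt: multiple zeta values with arguments near the members of almost all orbits of Euler's function

A pattern in one variable is a list of letters `b + u s` with natural numbers `b`, `u`; at a natural number `s` it gives an
index. The first letters may be constant, of arbitrary weight, such as in `ζ(5, 1, s, 3, 2 s + 1)`.

Let `φ_j` be the `j`-th iterate of Euler's function, `φ_0(m) = m`. Let `f` be a positive multiplicative function of at most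
polynomial growth with `f p ≤ M p` for the large primes `p` and different values at different large primes, for example the
identity, Euler's function or the sum of the divisors, and let `G` have steps bounded below by a positive constant and
growth at most `v^d`, for example `G v = a v^d`. Let `0 ≤ θ < 1` and let `Z` be a countable set of complex numbers.
We prove: there are `K(m)` tending to infinity and a set `M` of natural numbers of density one such that the following holds for
all finite families `w` of admissible patterns, all finite families `x` of elements of `Z`, all degrees `D` and all `C`, for all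
large `m` in `M`, for all `j ≤ K(m)`, with `v = f(φ_j(m))`, for ALL natural numbers `s` with `|s - G v| ≤ v^θ`: EVERY
polynomial relation of degree at most `D` with integer coefficients of absolute value at most `C ^ s` between the `x_i` and the
multiple zeta values `ζ(w_1(s)), ..., ζ(w_r(s))` is a consequence of the stuffle product and of the algebraic relations
between the `x_i` and the multiple zeta values of the fronts. So one set of density zero serves for all patterns, all constants
of `Z`, all degrees and all `C`.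

The iterates of Euler's function are not multiplicative, their values form a thin set and are taken with very large
multiplicities; so this does not follow from the number of the exceptional `s` (`ExceptionalTuples`, helper599).
-/

set_option autoImplicit false

namespace Pool.Agent.Results.MP_154526_nt.TotientOrbits

open Filter
open Pool.Agent.N733.TG (LM Expanding lm_totient lm_sigma expanding_pow)
open Pool.Agent.N760.IT (orb lm_id)
open Pool.Agent.N826.IT.Orb (AlmostAll almostAll_mono)
open Pool.Agent.Results.MP_154526_nt.ExceptionalTuples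
  (mzv Letter index AdmissiblePattern IsConsequence exceptional)
open MultiplicativeValues (OnlyConsequences only_mono exceptional_eq pow_bound)

/-- the bad arguments for one family of patterns: a bounded number of them in `[N, 2 N]` -/
lemma bounded {r t : ℕ} (w : Fin r → List (Letter 1)) (hw : ∀ i, AdmissiblePattern (w i)) (x : Fin t → ℂ) (D : ℕ) (C : ℝ) :
    ∃ K N₀ : ℕ, ∀ N : ℕ, N₀ ≤ N →
      {s : ℕ | N ≤ s ∧ s ≤ 2 * N ∧ ¬ OnlyConsequences w x D (C ^ s) (fun _ => s)}.ncard ≤ K := by
  obtain ⟨K, hK⟩ := ExceptionalTuples.result t w hw D 2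
  obtain ⟨N₀, hN₀⟩ := hK ((max |C| 1) ^ 2) x
  refine ⟨K, N₀, fun N hN => ?_⟩
  have h1 := hN₀ N hN
  rw [Nat.sub_self, pow_zero, mul_one] at h1
  refine le_trans ?_ h1
  have hfin : (exceptional w x D 2 N (((max |C| 1) ^ 2) ^ N)).Finite := by
    refine (Set.Finite.pi' (t := fun _ : Fin 1 => Set.Icc N (2 * N)) fun _ => Set.finite_Icc _ _).subset ?_
    intro s hs j
    exact ⟨(hs.1 j).1, (hs.1 j).2⟩
  refine Set.ncard_le_ncard_of_injOn (fun s : ℕ => (fun _ : Fin 1 => s)) (fun s hs => ?_) ?_ hfin
  · rw [← exceptional_eq]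
    exact ⟨fun _ => ⟨hs.1, hs.2.1⟩, fun h => hs.2.2 (only_mono w x D (pow_bound C hs.2.1) _ h)⟩
  · intro s _ s' _ hss
    exact congrFun hss 0

/-- the data of a problem: the patterns, the constants, the degree and `C` -/
abbrev Data (Z : Set ℂ) : Type := (Σ r : ℕ, Fin r → List (Letter 1)) × (Σ t : ℕ, Fin t → Z) × ℕ × ℕ

/-- `s` is bad for the data -/
def BadFor (Z : Set ℂ) (q : Data Z) (s : ℕ) : Prop :=
  (∀ i, AdmissiblePattern (q.1.2 i)) ∧
    ¬ OnlyConsequences q.1.2 (fun i => ((q.2.1.2 i : Z) : ℂ)) q.2.2.1 ((q.2.2.2 : ℝ) ^ s) (fun _ : Fin 1 => s)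

/-- `orb f j m` is `f(φ_j(m))`, `φ_j` the `j`-th iterate of Euler's function, `φ_0(m) = m`. Let `Z` be a countable set of
complex numbers, `f` with `LM`, `G` expanding and `0 ≤ θ < 1`. There are `K(m)` tending to infinity and a set `M` of natural
numbers of density one such that for all admissible patterns `w_1, ..., w_r` in one variable, all `x_1, ..., x_t` in `Z`,
all natural `D` and all real `C`, for all large `m` in `M`, for all `j ≤ K(m)`, with `v = f(φ_j(m))`, and ALL `s ≥ 1`
with `|s - G v| ≤ v^θ`, every polynomial relation of degree at most `D` with integer coefficients of absolute value at most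
`C ^ s` between the `x_i` and the multiple zeta values `ζ(w_i(s))` is a consequence of the stuffle product and of the algebraic
relations between the `x_i` and the multiple zeta values of the fronts. The identity, Euler's function and the sum of the
divisors satisfy `LM`; `α v^d` with `α > 0`, `d ≥ 1` is expanding. -/
theorem result :
    (∀ Z : Set ℂ, Z.Countable → ∀ f : ℕ → ℕ, LM f → ∀ (G : ℕ → ℝ) (d : ℝ), Expanding G d → ∀ θ : ℝ, 0 ≤ θ → θ < 1 →
      ∃ K : ℕ → ℕ, Tendsto K atTop atTop ∧ ∃ M : Set ℕ, AlmostAll (fun m => m ∈ M) ∧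
      ∀ {r t : ℕ} (w : Fin r → List (Letter 1)) (x : Fin t → ℂ) (D : ℕ) (C : ℝ), (∀ i, AdmissiblePattern (w i)) →
        (∀ i, x i ∈ Z) → ∃ m₀ : ℕ, ∀ m ∈ M, m₀ ≤ m → ∀ j ≤ K m, ∀ s : ℕ, 1 ≤ s →
          |(s : ℝ) - G (orb f j m)| ≤ (orb f j m : ℝ) ^ θ → OnlyConsequences w x D (C ^ s) (fun _ => s)) ∧
    (LM (fun m => m) ∧ LM Nat.totient ∧ LM (fun m => ∑ d ∈ m.divisors, d)) ∧
    ∀ α d : ℝ, 0 < α → 1 ≤ d → Expanding (fun v => α * (v : ℝ) ^ d) d := by
  refine ⟨fun Z hZ f hf G d hG θ hθ hθ1 => ?_, ⟨lm_id, lm_totient, lm_sigma⟩, fun α d hα hd => expanding_pow hα hd⟩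
  haveI : Countable Z := hZ.to_subtype
  haveI : Nonempty (Data Z) := ⟨(⟨0, fun i => i.elim0⟩, ⟨0, fun i => i.elim0⟩, 0, 0)⟩
  obtain ⟨e, he⟩ := exists_surjective_nat (Data Z)
  obtain ⟨K, hK, hK2⟩ := Pool.Agent.N760.SC.orbit_one (fun a s => BadFor Z (e a) s) (fun a => by
      by_cases h : ∀ i, AdmissiblePattern ((e a).1.2 i)
      · obtain ⟨K, N₀, h1⟩ := bounded (e a).1.2 h (fun i => (((e a).2.1.2 i : Z) : ℂ)) (e a).2.2.1 ((e a).2.2.2 : ℝ)
        refine ⟨K, N₀, fun N hN => le_trans (Set.ncard_le_ncard ?_ ?_) (h1 N hN)⟩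
        · rintro s ⟨g1, g2, g3⟩
          exact ⟨g1, g2, g3.2⟩
        · exact (Set.finite_Icc N (2 * N)).subset (fun s hs => ⟨hs.1, hs.2.1⟩)
      · refine ⟨0, 0, fun N _ => ?_⟩
        have : {s : ℕ | N ≤ s ∧ s ≤ 2 * N ∧ BadFor Z (e a) s} = ∅ := by
          ext s
          simp only [Set.mem_ofPred_eq, Set.mem_empty_iff_false, iff_false]
          rintro ⟨-, -, h1⟩
          exact h h1.1
        rw [this, Set.ncard_empty]) hf hG hθ hθ1
  refine ⟨K, hK, _, hK2, fun {r t} w x D C hw hx => ?_⟩
  obtain ⟨C', hC'⟩ := exists_nat_ge |C|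
  obtain ⟨a, ha⟩ := he (⟨r, w⟩, ⟨t, fun i => ⟨x i, hx i⟩⟩, D, C')
  obtain ⟨m₀, hm₀⟩ := Filter.eventually_atTop.1 (hK.eventually_ge_atTop a)
  refine ⟨m₀, fun m hm hmm j hj s hs hw' => ?_⟩
  have h1 := hm j hj a (hm₀ m hmm) s hs hw'
  rw [ha] at h1
  have h2 : OnlyConsequences w x D ((C' : ℝ) ^ s) (fun _ => s) := by
    by_contra hcon
    exact h1 ⟨hw, hcon⟩
  refine only_mono w x D ?_ _ h2
  calc C ^ s ≤ |C ^ s| := le_abs_self _
    _ = |C| ^ s := abs_pow C s
    _ ≤ (C' : ℝ) ^ s := pow_le_pow_left₀ (abs_nonneg C) hC' s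

end Pool.Agent.Results.MP_154526_nt.TotientOrbits
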